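import Pool.Agent.Y691.ST.Ind

/-!
# Stark's rational conjecture for abelian extensions and totally complex base fields
-/

set_option autoImplicit false

open Pool.Agent.Y691.ST

namespace Pool.Agent.Results.MP_d9bae3_nt.TotallyComplexBases

/-- **Stark's rational conjecture for abelian extensions and totally complex base fields.** Let `σ` be
an automorphism of `ℂ` and let `D U χ` be the quotient `A(χ)^σ / A(χ^σ)` for the character `χ` of a finite
Galois extension of the number field `F = Qbar^U`, with its known properties. The conjecture for all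
abelian extensions `H` of `F` (all `S`, `T`, `r`) says that `D U χ = 1` for all linear characters `χ` of
`F` (and all `σ`).

* It is true for all abelian extensions `H / F` of number fields if and only if it is true for the
  linear characters of the totally complex number fields `F`, and for the linear characters of order
  `2^k ≥ 4` of the number fields `F` which are not totally complex.
* If it is true for the linear characters of the totally complex number fields, then for all number
  fields `F` and all characters of all finite Galois extensions of `F` the quotient is a root of unity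
  of `2`-power order. -/
theorem result {d : (GalQ → ℂ) → ℂˣ} {D : (U : Subgroup GalQ) → (U → ℂ) → ℂˣ}
    (hD : IsDefect d D) :
    (HoldsLinear (fun _ => True) D ↔
      HoldsLinear TotallyComplex D ∧ HoldsTwoPower (fun U => ¬ TotallyComplex U) D) ∧
    (HoldsLinear TotallyComplex D → HoldsUpToTwo D) := by
  obtain ⟨c, φ, hφ, hconj⟩ := exists_conjugation
  have hd : IsDef d := ⟨hD.add, hD.rational⟩
  have hlin : ∀ (U : Subgroup GalQ) (χ : U →* ℂˣ), IsOpenLinear U χ →
      D U (lin χ) = d (indF U χ) := by
    intro U χ h
    obtain ⟨h1, h2⟩ := isOpenLinear_iff.mp h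
    rw [hD.ind U _ h1 (isArtin_lin h2), indC_lin]
  have hz := fun g (h : g * c = c * g) => centralizer hφ h
  have hgood : HoldsLinear TotallyComplex D →
      ∀ (U : Subgroup GalQ) (χ : U →* ℂˣ), IsOpenLinear U χ → (∀ g, g * c * g⁻¹ ∉ U) →
        d (indF U χ) = 1 := by
    intro h U χ hχ hU
    obtain ⟨h1, h2⟩ := isOpenLinear_iff.mp hχ
    rw [← hlin U χ hχ]
    refine h U χ h1 h2 fun c' hc' => ?_
    obtain ⟨g, rfl⟩ := hconj c' hc'
    exact hU g
  refine ⟨⟨fun h => ⟨fun U χ h1 h2 _ => h U χ h1 h2 trivial,
    fun U χ h1 h2 _ _ _ => h U χ h1 h2 trivial⟩, ?_⟩, ?_⟩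
  · rintro ⟨ha, hb⟩ U θ hU hθ _
    rw [hD.ind U _ hU (isArtin_lin hθ)]
    refine prof_eq_one hz (conj_sq hφ) (conj_ne_one hφ) hd (hgood ha) ?_
      (isArtin_ind hU (isArtin_lin hθ))
    intro V χ hχ hk
    obtain ⟨h1, h2⟩ := isOpenLinear_iff.mp hχ
    rw [← hlin V χ hχ]
    by_cases hV : TotallyComplex V
    · exact ha V χ h1 h2 hV
    · by_cases h3 : χ ^ 2 = 1
      · rw [hlin V χ hχ]
        refine hD.rational _ ?_ (rational_indF (Subgroup.quotient_finite_of_isOpen V h1) h3)
        rw [← indC_lin]
        exact isArtin_ind h1 (isArtin_lin h2)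
      · exact hb V χ h1 h2 hV hk h3
  · intro ha U θ hU hθ
    rw [hD.ind U θ hU hθ]
    exact prof_pow hz (conj_sq hφ) (conj_ne_one hφ) hd (hgood ha) (isArtin_ind hU hθ)

end Pool.Agent.Results.MP_d9bae3_nt.TotallyComplexBases
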