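import Pool.Agent.Y951.SQ.Main

/-!
# Stark's rational conjecture for abelian extensions, up to sign
-/

set_option autoImplicit false

open Pool.Agent.Y691.ST Pool.Agent.Y951.SE Pool.Agent.Y951.SQ

namespace Pool.Agent.Results.MP_d9bae3_nt.UpToSign

/-- **Stark's rational conjecture for abelian extensions, up to sign.** Let `σ` be an automorphism of `ℂ`
and let `D U χ` be the quotient `A(χ)^σ / A(χ^σ)` for the character `χ` of a finite Galois extension of the
number field `F = Qbar^U`, with its known properties. The conjecture for all abelian extensions `H` of `F`
(all `S`, `T`, `r`) says that `D U χ = 1` for all linear characters `χ` of `F` (and all `σ`). Let `m = 1`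
(or any `m`) and suppose that it is true for the linear characters of the totally complex number fields
(`D U χ ^ m = 1`).

* Then it is true up to sign for all abelian extensions of all number fields (and for all characters of
  all finite Galois extensions): `D U χ = ±1` (`D U χ ^ (2m) = 1`).
* It is true for the linear characters `χ` of all number fields whose order is not divisible by `4`
  (`D U χ ^ m = 1`). -/
theorem result {d : (GalQ → ℂ) → ℂˣ} {D : (U : Subgroup GalQ) → (U → ℂ) → ℂˣ}
    (hD : IsDefect d D) {m : ℕ} (h : HoldsLinear TotallyComplex (fun U θ => D U θ ^ m)) :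
    HoldsPower D (2 * m) ∧ HoldsNotFour D m := by
  obtain ⟨h1, -, h2⟩ := main (isDef'_of_defect hD) hD.ind h
  exact ⟨h1, h2⟩

end Pool.Agent.Results.MP_d9bae3_nt.UpToSign
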